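import Pool.Agent.H46.SQ.Targets

/-!
Module COMP of the board sr_modules (MP_04ff0f_nt): comparison of `ζ * ζ * χ₈` with
a completely multiplicative function.
-/

set_option autoImplicit false

open Finset

namespace Pool.Agent.H51.SR

open Pool.Agent.H46.SQ ArithmeticFunction

/-- The multiplicative function with value `f p k` at `p ^ k`. -/
noncomputable def MF (f : ℕ → ℕ → ℝ) : ArithmeticFunction ℝ :=
  ⟨fun n => if n = 0 then 0 else n.factorization.prod f, by simp⟩

theorem MF_apply (f : ℕ → ℕ → ℝ) {n : ℕ} (hn : n ≠ 0) : MF f n = n.factorization.prod f := by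
  show (if n = 0 then 0 else n.factorization.prod f) = _
  simp [hn]

theorem MF_mult (f : ℕ → ℕ → ℝ) : (MF f).IsMultiplicative := by
  rw [IsMultiplicative.iff_ne_zero]
  refine ⟨?_, ?_⟩
  · rw [MF_apply f one_ne_zero]; simp
  · intro m n hm hn hmn
    rw [MF_apply f (Nat.mul_ne_zero hm hn), MF_apply f hm, MF_apply f hn,
      Nat.factorization_mul hm hn]
    exact Finsupp.prod_add_index_of_disjoint (Nat.Coprime.disjoint_primeFactors hmn) f

theorem MF_prime_pow (f : ℕ → ℕ → ℝ) (hf : ∀ p, f p 0 = 1) {p : ℕ} (hp : p.Prime) (k : ℕ) :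
    MF f (p ^ k) = f p k := by
  rw [MF_apply f (pow_ne_zero _ hp.ne_zero), hp.factorization_pow,
    Finsupp.prod_single_index (hf p)]

theorem MF_nonneg (f : ℕ → ℕ → ℝ) (hf : ∀ p k, 0 ≤ f p k) (n : ℕ) : 0 ≤ MF f n := by
  by_cases hn : n = 0
  · subst hn; simp
  · rw [MF_apply f hn]
    exact Finset.prod_nonneg (fun p _ => hf _ _)

/-- The character as an arithmetic function. -/
noncomputable def chiA : ArithmeticFunction ℝ :=
  ⟨fun n => (ZMod.χ₈ (n : ZMod 8) : ℝ), by simp⟩

theorem chiA_apply (n : ℕ) : chiA n = (ZMod.χ₈ (n : ZMod 8) : ℝ) := rfl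

theorem chiA_mult : chiA.IsMultiplicative := by
  refine ⟨?_, ?_⟩
  · rw [chiA_apply]; simp
  · intro m n _
    rw [chiA_apply, chiA_apply, chiA_apply]
    push_cast
    rw [map_mul]
    push_cast
    ring

/-- `ζ * ζ * χ₈`. -/
noncomputable def AA : ArithmeticFunction ℝ := (zeta : ArithmeticFunction ℝ) * ((zeta : ArithmeticFunction ℝ) * chiA)

theorem AA_mult : AA.IsMultiplicative := by
  unfold AA
  exact (isMultiplicative_zeta.natCast).mul ((isMultiplicative_zeta.natCast).mul chiA_mult)

theorem zchi_apply (n : ℕ) : ((zeta : ArithmeticFunction ℝ) * chiA) n = RR n := by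
  rw [coe_zeta_mul_apply]
  rfl

theorem AA_apply (n : ℕ) : AA n = ∑ d ∈ n.divisors, RR d := by
  unfold AA
  rw [coe_zeta_mul_apply]
  exact Finset.sum_congr rfl (fun d _ => zchi_apply d)

theorem RR_prime_pow {p : ℕ} (hp : p.Prime) (k : ℕ) :
    RR (p ^ k) = ∑ i ∈ Finset.range (k + 1), ((ZMod.χ₈ (p : ZMod 8) : ℝ)) ^ i := by
  unfold RR
  rw [Nat.sum_divisors_prime_pow hp]
  refine Finset.sum_congr rfl (fun i _ => ?_)
  push_cast
  rw [map_pow]
  push_cast
  ring

theorem AA_prime_pow {p : ℕ} (hp : p.Prime) (k : ℕ) :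
    AA (p ^ k) = ∑ j ∈ Finset.range (k + 1), RR (p ^ j) := by
  rw [AA_apply, Nat.sum_divisors_prime_pow hp]

/-- Values of the indicator of squares and twice squares. -/
noncomputable def gg (p k : ℕ) : ℝ := if p = 2 ∨ Even k then 1 else 0

theorem gg_nonneg (p k : ℕ) : 0 ≤ gg p k := by
  unfold gg; split_ifs <;> norm_num

theorem gg_le_one (p k : ℕ) : gg p k ≤ 1 := by
  unfold gg; split_ifs <;> norm_num

/-- The completely multiplicative function of the values of rho. -/
noncomputable def hv (p k : ℕ) : ℝ := (rho p : ℝ) ^ k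

theorem hv_nonneg (p k : ℕ) : 0 ≤ hv p k := by unfold hv; positivity

theorem BB_prime_pow {p : ℕ} (hp : p.Prime) (k : ℕ) :
    (MF gg * MF hv) (p ^ k) = ∑ j ∈ Finset.range (k + 1), gg p j * hv p (k - j) := by
  rw [mul_apply, Nat.sum_divisorsAntidiagonal (fun a b => MF gg a * MF hv b),
    Nat.sum_divisors_prime_pow hp]
  refine Finset.sum_congr rfl (fun j hj => ?_)
  rw [Finset.mem_range] at hj
  rw [Nat.pow_div (by omega) hp.pos, MF_prime_pow gg (fun p => by simp [gg]) hp,
    MF_prime_pow hv (fun p => by simp [hv]) hp]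

theorem three_pow_ge (k : ℕ) : ∑ j ∈ Finset.range (k + 1), ((j : ℝ) + 1) ≤ 3 ^ k := by
  induction k with
  | zero => simp
  | succ n ih =>
    rw [Finset.sum_range_succ, pow_succ]
    have h : ((n : ℝ) + 2) ≤ 2 * 3 ^ n := by
      have h2 : ∀ m : ℕ, ((m : ℝ) + 2) ≤ 2 * 3 ^ m := by
        intro m
        induction m with
        | zero => norm_num
        | succ l ihl =>
          rw [pow_succ]; push_cast
          have : (0 : ℝ) ≤ l := Nat.cast_nonneg l
          nlinarith
      exact h2 n
    push_cast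
    linarith

theorem local_ineq (hRHO : T_RHO) {p : ℕ} (hp : p.Prime) (k : ℕ) :
    AA (p ^ k) ≤ (MF gg * MF hv) (p ^ k) := by
  obtain ⟨h2, hodd, _⟩ := hRHO
  rw [AA_prime_pow hp, BB_prime_pow hp]
  by_cases hp2 : p = 2
  · subst hp2
    refine Finset.sum_le_sum (fun j _ => ?_)
    rw [RR_prime_pow hp]
    have hchi : (ZMod.χ₈ ((2 : ℕ) : ZMod 8) : ℝ) = 0 := by
      have : ZMod.χ₈ ((2 : ℕ) : ZMod 8) = 0 := by decide
      rw [this]; simp
    rw [hchi]
    unfold gg hv
    rw [h2]
    simp only [true_or, if_true, Nat.cast_one, one_pow, mul_one]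
    rw [Finset.sum_range_succ']
    simp
  · have hr := hodd p hp hp2
    have hcases : ZMod.χ₈ (p : ZMod 8) = 1 ∨ ZMod.χ₈ (p : ZMod 8) = -1 := by
      have hne : ZMod.χ₈ (p : ZMod 8) ≠ 0 := by
        have hop : p % 2 = 1 := hp.eq_two_or_odd.resolve_left hp2
        have hm : p % 8 = 1 ∨ p % 8 = 3 ∨ p % 8 = 5 ∨ p % 8 = 7 := by omega
        rw [ZMod.χ₈_nat_eq_if_mod_eight]
        rcases hm with h | h | h | h <;> simp [hop, h]
      rw [ZMod.χ₈_nat_eq_if_mod_eight] at hne ⊢
      split_ifs at hne ⊢ <;> simp_all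
    rcases hcases with h | h
    · -- split
      have hrho : (rho p : ℝ) = 3 := by
        have : (rho p : ℤ) = 3 := by rw [hr, h]; norm_num
        exact_mod_cast this
      have h1 : ∑ j ∈ Finset.range (k + 1), RR (p ^ j) ≤ 3 ^ k := by
        refine le_trans (le_of_eq ?_) (three_pow_ge k)
        refine Finset.sum_congr rfl (fun j _ => ?_)
        rw [RR_prime_pow hp, h]
        simp
      refine h1.trans ?_
      have h0 : gg p 0 * hv p (k - 0) = 3 ^ k := by
        unfold gg hv
        simp [hrho]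
      rw [← h0]
      exact Finset.single_le_sum (f := fun j => gg p j * hv p (k - j))
        (fun j _ => mul_nonneg (gg_nonneg _ _) (hv_nonneg _ _)) (by simp)
    · -- inert
      have hrho : (rho p : ℝ) = 1 := by
        have : (rho p : ℤ) = 1 := by rw [hr, h]; norm_num
        exact_mod_cast this
      refine Finset.sum_le_sum (fun j _ => ?_)
      rw [RR_prime_pow hp, h]
      unfold gg hv
      rw [hrho, one_pow, mul_one]
      have hs : ∀ j : ℕ, ∑ i ∈ Finset.range (j + 1), (((-1 : ℤ) : ℝ)) ^ i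
          = if Even j then 1 else 0 := by
        intro j
        induction j with
        | zero => simp
        | succ n ih =>
          rw [Finset.sum_range_succ, ih]
          by_cases he : Even n
          · have h1 : ¬ Even (n + 1) := by
              rw [Nat.even_add_one]; simpa using he
            have h2 : Odd (n + 1) := Nat.not_even_iff_odd.mp h1
            rw [if_pos he, if_neg h1]
            push_cast
            rw [h2.neg_one_pow]; norm_num
          · have h1 : Even (n + 1) := by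
              rw [Nat.even_add_one]; exact he
            rw [if_neg he, if_pos h1]
            push_cast
            rw [h1.neg_one_pow]; norm_num
      rw [hs j]
      by_cases he : Even j
      · simp [he]
      · simp [he, hp2]

theorem pointwise (hRHO : T_RHO) {n : ℕ} (hn : n ≠ 0) :
    AA n ≤ (MF gg * MF hv) n := by
  have hB : (MF gg * MF hv).IsMultiplicative := (MF_mult gg).mul (MF_mult hv)
  rw [AA_mult.multiplicative_factorization AA hn, hB.multiplicative_factorization _ hn]
  unfold Finsupp.prod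
  refine Finset.prod_le_prod ?_ ?_
  · intro p hp
    have hpp : p.Prime := Nat.prime_of_mem_primeFactors (by simpa using hp)
    show 0 ≤ AA (p ^ (n.factorization p))
    rw [AA_prime_pow hpp]
    refine Finset.sum_nonneg (fun j _ => ?_)
    rw [RR_prime_pow hpp, ZMod.χ₈_nat_eq_if_mod_eight]
    have hs : ∀ j : ℕ, 0 ≤ ∑ i ∈ Finset.range (j + 1), ((-1 : ℝ)) ^ i := by
      intro j
      rw [neg_one_geom_sum]
      split_ifs <;> norm_num
    split_ifs
    · refine Finset.sum_nonneg (fun i _ => ?_)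
      push_cast
      positivity
    · refine Finset.sum_nonneg (fun i _ => ?_)
      push_cast
      positivity
    · push_cast
      exact hs j
  · intro p hp
    have hpp : p.Prime := Nat.prime_of_mem_primeFactors (by simpa using hp)
    exact local_ineq hRHO hpp _

theorem MF_gg_le (n x : ℕ) (hn : 1 ≤ n) (hx : n ≤ x) :
    MF gg n ≤ ∑ b ∈ Finset.Icc 1 x, ((if n = b ^ 2 then (1 : ℝ) else 0) +
      (if n = 2 * b ^ 2 then (1 : ℝ) else 0)) := by
  have hn0 : n ≠ 0 := by omega
  have hterm : ∀ b ∈ Finset.Icc 1 x, 0 ≤ ((if n = b ^ 2 then (1 : ℝ) else 0) +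
      (if n = 2 * b ^ 2 then (1 : ℝ) else 0)) := by
    intro b _
    split_ifs <;> norm_num
  rw [MF_apply gg hn0]
  by_cases hall : ∀ p ∈ n.factorization.support, p = 2 ∨ Even (n.factorization p)
  · have h1 : n.factorization.prod gg ≤ 1 := by
      unfold Finsupp.prod
      exact Finset.prod_le_one (fun p _ => gg_nonneg _ _) (fun p _ => gg_le_one _ _)
    refine h1.trans ?_
    obtain ⟨s, b, hsb, hsq⟩ := Nat.sq_mul_squarefree n
    have hb0 : b ≠ 0 := by
      rintro rfl
      apply hn0
      rw [← hsb]; simp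
    have hs0 : s ≠ 0 := hsq.ne_zero
    have hs2 : s = 1 ∨ s = 2 := by
      have hprime : ∀ q : ℕ, q.Prime → q ∣ s → q = 2 := by
        intro q hq hqs
        have hf : n.factorization q = 2 * b.factorization q + s.factorization q := by
          rw [← hsb, Nat.factorization_mul (pow_ne_zero _ hb0) hs0, Nat.factorization_pow]
          simp
        have hs1 : s.factorization q = 1 := by
          have hle : s.factorization q ≤ 1 := hsq.natFactorization_le_one q
          have hge : 1 ≤ s.factorization q := by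
            rw [← Nat.Prime.dvd_iff_one_le_factorization hq hs0]
            exact hqs
          omega
        have hmem : q ∈ n.factorization.support := by
          rw [Finsupp.mem_support_iff]
          omega
        rcases hall q hmem with h | h
        · exact h
        · exfalso
          rw [hf, hs1] at h
          rcases h with ⟨t, ht⟩
          omega
      by_cases hs1 : s = 1
      · exact Or.inl hs1
      · right
        obtain ⟨q, hq, hqs⟩ := Nat.exists_prime_and_dvd hs1
        have hq2 := hprime q hq hqs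
        subst hq2
        obtain ⟨t, ht⟩ := hqs
        have ht1 : t = 1 := by
          by_contra hne
          obtain ⟨q', hq', hqt⟩ := Nat.exists_prime_and_dvd hne
          have hq'2 := hprime q' hq' (by rw [ht]; exact hqt.mul_left 2)
          subst hq'2
          have h4 : 2 * 2 ∣ s := by
            rw [ht]; exact Nat.mul_dvd_mul_left 2 hqt
          have hu : IsUnit (2 : ℕ) := hsq 2 h4
          rw [Nat.isUnit_iff] at hu
          omega
        rw [ht, ht1]
    have hbx : b ∈ Finset.Icc 1 x := by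
      rw [Finset.mem_Icc]
      refine ⟨by omega, ?_⟩
      have hbn : b ≤ n := by
        calc b ≤ b ^ 2 := by nlinarith [Nat.pos_of_ne_zero hb0]
          _ ≤ b ^ 2 * s := Nat.le_mul_of_pos_right _ (Nat.pos_of_ne_zero hs0)
          _ = n := hsb
      omega
    refine le_trans ?_ (Finset.single_le_sum hterm hbx)
    rcases hs2 with h | h
    · have h1 : n = b ^ 2 := by rw [← hsb, h, mul_one]
      rw [if_pos h1]
      split_ifs <;> norm_num
    · have h1 : n = 2 * b ^ 2 := by rw [← hsb, h, mul_comm]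
      rw [if_pos h1]
      split_ifs <;> norm_num
  · push Not at hall
    obtain ⟨p, hp, hp2, hpo⟩ := hall
    have h0 : n.factorization.prod gg = 0 := by
      unfold Finsupp.prod
      refine Finset.prod_eq_zero hp ?_
      unfold gg
      rw [if_neg]
      push Not
      exact ⟨hp2, hpo⟩
    rw [h0]
    exact Finset.sum_nonneg hterm

theorem sum_gg_le (x : ℕ) : ∑ n ∈ Finset.Icc 1 x, MF gg n / n ≤ 4 := by
  have h1 : ∑ n ∈ Finset.Icc 1 x, MF gg n / n ≤
      ∑ n ∈ Finset.Icc 1 x, ∑ b ∈ Finset.Icc 1 x, ((if n = b ^ 2 then (1 : ℝ) else 0) +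
        (if n = 2 * b ^ 2 then (1 : ℝ) else 0)) / n := by
    refine Finset.sum_le_sum (fun n hn => ?_)
    rw [Finset.mem_Icc] at hn
    rw [← Finset.sum_div]
    have hpos : (0 : ℝ) ≤ n := Nat.cast_nonneg n
    exact div_le_div_of_nonneg_right (MF_gg_le n x hn.1 hn.2) hpos
  refine h1.trans ?_
  rw [Finset.sum_comm]
  have h2 : ∀ b ∈ Finset.Icc 1 x, ∑ n ∈ Finset.Icc 1 x, ((if n = b ^ 2 then (1 : ℝ) else 0) +
        (if n = 2 * b ^ 2 then (1 : ℝ) else 0)) / n ≤ 2 * (1 / (b : ℝ) ^ 2) := by
    intro b hb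
    rw [Finset.mem_Icc] at hb
    have hbpos : (0 : ℝ) < b := by exact_mod_cast hb.1
    have e1 : ∑ n ∈ Finset.Icc 1 x, ((if n = b ^ 2 then (1 : ℝ) else 0) +
        (if n = 2 * b ^ 2 then (1 : ℝ) else 0)) / n =
        ∑ n ∈ Finset.Icc 1 x, (if n = b ^ 2 then (1 : ℝ) / n else 0) +
        ∑ n ∈ Finset.Icc 1 x, (if n = 2 * b ^ 2 then (1 : ℝ) / n else 0) := by
      rw [← Finset.sum_add_distrib]
      refine Finset.sum_congr rfl (fun n _ => ?_)
      split_ifs <;> ring
    rw [e1, Finset.sum_ite_eq', Finset.sum_ite_eq']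
    have a1 : (if b ^ 2 ∈ Finset.Icc 1 x then (1 : ℝ) / ((b ^ 2 : ℕ) : ℝ) else 0)
        ≤ 1 / (b : ℝ) ^ 2 := by
      split_ifs
      · push_cast; exact le_refl _
      · positivity
    have a2 : (if 2 * b ^ 2 ∈ Finset.Icc 1 x then (1 : ℝ) / ((2 * b ^ 2 : ℕ) : ℝ) else 0)
        ≤ 1 / (b : ℝ) ^ 2 := by
      split_ifs
      · push_cast
        apply one_div_le_one_div_of_le (by positivity)
        nlinarith [sq_nonneg (b : ℝ)]
      · positivity
    linarith
  refine (Finset.sum_le_sum h2).trans ?_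
  rw [← Finset.mul_sum]
  have := Pool.Agent.H75.PS.sum_inv_sq_le_two x
  linarith

theorem hv_eq_hh {n : ℕ} (hn : n ≠ 0) : MF hv n = hh (fun p => (rho p : ℝ)) n := by
  rw [MF_apply hv hn]
  rfl

theorem conv_sum_le (F G : ℕ → ℝ) (hF : ∀ n, 0 ≤ F n) (hG : ∀ n, 0 ≤ G n) (x : ℕ) :
    ∑ n ∈ Finset.Icc 1 x, (∑ q ∈ n.divisorsAntidiagonal, F q.1 * G q.2) / n ≤
      (∑ n ∈ Finset.Icc 1 x, F n / n) * ∑ n ∈ Finset.Icc 1 x, G n / n := by
  set S : Finset (ℕ × ℕ) := Finset.Icc 1 x ×ˢ Finset.Icc 1 x with hS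
  set T : Finset (ℕ × ℕ) := S.filter (fun q => q.1 * q.2 ∈ Finset.Icc 1 x) with hT
  have h1 : ∑ n ∈ Finset.Icc 1 x, (∑ q ∈ n.divisorsAntidiagonal, F q.1 * G q.2) / n =
      ∑ q ∈ T, (F q.1 / q.1) * (G q.2 / q.2) := by
    rw [← Finset.sum_fiberwise_of_maps_to (s := T) (t := Finset.Icc 1 x)
      (g := fun q => q.1 * q.2) (fun q hq => (Finset.mem_filter.mp hq).2)]
    refine Finset.sum_congr rfl (fun n hn => ?_)
    rw [Finset.sum_div]
    have hset : T.filter (fun q => q.1 * q.2 = n) = n.divisorsAntidiagonal := by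
      ext q
      rw [Finset.mem_filter, hT, Finset.mem_filter, hS, Finset.mem_product,
        Nat.mem_divisorsAntidiagonal]
      rw [Finset.mem_Icc] at hn
      constructor
      · rintro ⟨⟨⟨_, _⟩, _⟩, h⟩
        exact ⟨h, by omega⟩
      · rintro ⟨h, _⟩
        have hq1 : q.1 ≠ 0 := by
          intro h0; rw [h0, zero_mul] at h; omega
        have hq2 : q.2 ≠ 0 := by
          intro h0; rw [h0, mul_zero] at h; omega
        have l1 : q.1 ≤ n := by
          rw [← h]; exact Nat.le_mul_of_pos_right _ (Nat.pos_of_ne_zero hq2)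
        have l2 : q.2 ≤ n := by
          rw [← h]; exact Nat.le_mul_of_pos_left _ (Nat.pos_of_ne_zero hq1)
        refine ⟨⟨⟨?_, ?_⟩, ?_⟩, h⟩
        · rw [Finset.mem_Icc]; omega
        · rw [Finset.mem_Icc]; omega
        · rw [h, Finset.mem_Icc]; exact hn
    rw [hset]
    refine Finset.sum_congr rfl (fun q hq => ?_)
    rw [Nat.mem_divisorsAntidiagonal] at hq
    rw [← hq.1]
    push_cast
    rw [div_mul_div_comm]
  rw [h1, Finset.sum_mul_sum, ← Finset.sum_product']
  refine Finset.sum_le_sum_of_subset_of_nonneg (Finset.filter_subset _ _) ?_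
  intro q _ _
  exact mul_nonneg (div_nonneg (hF _) (Nat.cast_nonneg _)) (div_nonneg (hG _) (Nat.cast_nonneg _))

/-- Module COMP. -/
theorem sr_COMP (hRHO : T_RHO) : T_COMP := by
  intro x
  have h1 : ∑ n ∈ Finset.Icc 1 x, (∑ d ∈ n.divisors, RR d) / n ≤
      ∑ n ∈ Finset.Icc 1 x, (∑ q ∈ n.divisorsAntidiagonal, MF gg q.1 * MF hv q.2) / n := by
    refine Finset.sum_le_sum (fun n hn => ?_)
    rw [Finset.mem_Icc] at hn
    have hpos : (0 : ℝ) ≤ n := Nat.cast_nonneg n
    have h := pointwise hRHO (n := n) (by omega)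
    rw [AA_apply, mul_apply] at h
    exact div_le_div_of_nonneg_right h hpos
  refine h1.trans ?_
  refine (conv_sum_le _ _ (MF_nonneg gg gg_nonneg) (MF_nonneg hv hv_nonneg) x).trans ?_
  have h2 : ∑ n ∈ Finset.Icc 1 x, MF hv n / n =
      ∑ n ∈ Finset.Icc 1 x, hh (fun p => (rho p : ℝ)) n / n := by
    refine Finset.sum_congr rfl (fun n hn => ?_)
    rw [Finset.mem_Icc] at hn
    rw [hv_eq_hh (by omega)]
  have h3 : 0 ≤ ∑ n ∈ Finset.Icc 1 x, MF hv n / n :=
    Finset.sum_nonneg (fun n _ => div_nonneg (MF_nonneg hv hv_nonneg n) (Nat.cast_nonneg n))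
  rw [← h2]
  exact mul_le_mul_of_nonneg_right (sum_gg_le x) h3

end Pool.Agent.H51.SR
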